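import Pool.Agent.H64.EV.Targets

/-!
# HYO: homogeneous bases which are hyperbolic, and orthogonal in the middle degree
(adapted from H30/NL/HYB.lean)
-/

set_option autoImplicit false
set_option linter.unusedSectionVars false

open Matrix Pool.Agent.H64.CC Pool.Agent.H2.NL Pool.Agent.H64.EV

namespace Pool.Agent.H35.EV

section aux

variable {K : Type} [Field K] [CharZero K] {N : ℕ}

/-- the component of degree `d` -/
private def cp (deg : Fin N → ℕ) (d : ℕ) (u : Fin N → K) : Fin N → K :=
  fun a => if deg a = d then u a else 0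

/-- homogeneous vectors -/
private def hom (deg : Fin N → ℕ) (d : ℕ) (u : Fin N → K) : Prop := ∀ a, u a ≠ 0 → deg a = d

private theorem hom_cp (deg : Fin N → ℕ) (d : ℕ) (u : Fin N → K) : hom deg d (cp deg d u) := by
  intro a h
  by_contra hd
  exact h (if_neg hd)

/-- the form -/
private def B (η : Matrix (Fin N) (Fin N) K) (u v : Fin N → K) : K := u ⬝ᵥ (η *ᵥ v)

private theorem B_sum (η : Matrix (Fin N) (Fin N) K) (u v : Fin N → K) :
    B η u v = ∑ a, ∑ b, u a * η a b * v b := by
  unfold B dotProduct mulVec dotProduct
  refine Finset.sum_congr rfl fun a _ => ?_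
  rw [Finset.mul_sum]
  refine Finset.sum_congr rfl fun b _ => ?_
  ring

private theorem B_add (η : Matrix (Fin N) (Fin N) K) (u v w : Fin N → K) :
    B η u (v + w) = B η u v + B η u w := by
  unfold B
  rw [mulVec_add, dotProduct_add]

private theorem B_sub (η : Matrix (Fin N) (Fin N) K) (u v w : Fin N → K) :
    B η u (v - w) = B η u v - B η u w := by
  unfold B
  rw [mulVec_sub, dotProduct_sub]

private theorem B_smul (η : Matrix (Fin N) (Fin N) K) (u v : Fin N → K) (c : K) :
    B η u (c • v) = c * B η u v := by
  unfold B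
  rw [mulVec_smul, dotProduct_smul, smul_eq_mul]

variable {deg : Fin N → ℕ} {τ : ℕ} {η : Matrix (Fin N) (Fin N) K}

private theorem B_cp (hη : ∀ a b, η a b ≠ 0 → deg a + deg b = 2 * τ) {u : Fin N → K} {d : ℕ}
    (hu : hom deg d u) (k : ℕ) (x : Fin N → K) :
    B η u (cp deg k x) = if d + k = 2 * τ then B η u x else 0 := by
  rw [B_sum, B_sum]
  by_cases hk : d + k = 2 * τ
  · rw [if_pos hk]
    refine Finset.sum_congr rfl fun a _ => Finset.sum_congr rfl fun b _ => ?_
    by_cases h1 : u a = 0
    · rw [h1]; ring
    by_cases h2 : η a b = 0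
    · rw [h2]; ring
    have h3 := hu a h1
    have h4 := hη a b h2
    have h5 : deg b = k := by omega
    show u a * η a b * (if deg b = k then x b else 0) = _
    rw [if_pos h5]
  · rw [if_neg hk]
    refine Finset.sum_eq_zero fun a _ => Finset.sum_eq_zero fun b _ => ?_
    by_cases h1 : u a = 0
    · rw [h1]; ring
    by_cases h2 : η a b = 0
    · rw [h2]; ring
    have h3 := hu a h1
    have h4 := hη a b h2
    have h5 : deg b ≠ k := by omega
    show u a * η a b * (if deg b = k then x b else 0) = _
    rw [if_neg h5, mul_zero]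

private theorem cp_self {u : Fin N → K} {d : ℕ} (hu : hom deg d u) : cp deg d u = u := by
  funext a
  unfold cp
  by_cases h : deg a = d
  · rw [if_pos h]
  · rw [if_neg h]
    by_contra h'
    exact h (hu a (Ne.symm h'))

private theorem B_zero (hη : ∀ a b, η a b ≠ 0 → deg a + deg b = 2 * τ) {u v : Fin N → K} {d e : ℕ}
    (hu : hom deg d u) (hv : hom deg e v) (h : d + e ≠ 2 * τ) : B η u v = 0 := by
  rw [← cp_self hv, B_cp hη hu, if_neg h]

private theorem B_symm (hη : ∀ a b, η a b ≠ 0 → deg a + deg b = 2 * τ)
    (hs : ∀ a b, η a b = ks K (decide (Odd (deg a))) (decide (Odd (deg b))) * η b a)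
    {u : Fin N → K} {d : ℕ} (hu : hom deg d u) (v : Fin N → K) :
    B η u v = sg K (decide (Odd d)) * B η v u := by
  rw [B_sum, B_sum, Finset.sum_comm, Finset.mul_sum]
  refine Finset.sum_congr rfl fun b _ => ?_
  rw [Finset.mul_sum]
  refine Finset.sum_congr rfl fun a _ => ?_
  by_cases h1 : u a = 0
  · rw [h1]; ring
  by_cases h2 : η b a = 0
  · rw [hs a b, h2]; ring
  have h3 := hu a h1
  have h4 := hη b a h2
  have h5 : decide (Odd (deg b)) = decide (Odd d) := by
    rw [decide_eq_decide]
    rw [← h3]
    constructor
    · intro h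
      by_contra h6
      rw [Nat.not_odd_iff_even] at h6
      have h7 := h.add_even h6
      rw [h4] at h7
      exact (Nat.not_even_iff_odd.2 h7) (even_two_mul τ)
    · intro h
      by_contra h6
      rw [Nat.not_odd_iff_even] at h6
      have h7 := h6.add_odd h
      rw [h4] at h7
      exact (Nat.not_even_iff_odd.2 h7) (even_two_mul τ)
  rw [hs a b, h5, h3, ks_self]
  ring

end aux

/-- the main induction, with an arbitrary index type -/
private theorem main (K : Type) [Field K] [CharZero K] (N : ℕ) (deg : Fin N → ℕ) (τ : ℕ)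
    (η : Matrix (Fin N) (Fin N) K) (hτ : Even τ) (hη : ∀ a b, η a b ≠ 0 → deg a + deg b = 2 * τ)
    (hs : ∀ a b, η a b = ks K (decide (Odd (deg a))) (decide (Odd (deg b))) * η b a) :
    ∀ (n : ℕ) (U : Submodule K (Fin N → K)), Module.finrank K U ≤ n →
    (∀ u ∈ U, ∀ d : ℕ, cp deg d u ∈ U) →
    (∀ u ∈ U, (∀ v ∈ U, B η u v = 0) → u = 0) →
    ∃ (J : Type) (_ : Fintype J) (_ : DecidableEq J) (j : Matrix (Fin N) J K) (dg : J → ℕ)
      (F : OForm K J), (∀ b, (fun a => j a b) ∈ U) ∧ (∀ u ∈ U, ∃ x, u = j *ᵥ x) ∧
      (∀ x y, B η (fun a => j a x) (fun a => j a y) = F.η x y) ∧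
      (∀ a b, j a b ≠ 0 → deg a = dg b) ∧ (∀ b, F.o b = decide (Odd (dg b))) ∧
      (∀ b, dg b = τ → F.st b = b) := by
  intro n
  induction n with
  | zero =>
    intro U hU hg hn
    have hU0 : U = ⊥ := Submodule.finrank_eq_zero.1 (Nat.le_zero.1 hU)
    refine ⟨Empty, inferInstance, inferInstance, fun _ b => b.elim, fun b => b.elim,
      ⟨fun b => b.elim, fun b => b, fun b => b.elim, fun b => b.elim, fun b => b.elim,
        fun b => b.elim, fun b => b.elim⟩,
      fun b => b.elim, ?_, fun b => b.elim, fun _ b => b.elim, fun b => b.elim,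
      fun b => b.elim⟩
    intro u hu
    rw [hU0, Submodule.mem_bot] at hu
    refine ⟨fun b => b.elim, ?_⟩
    rw [hu]
    funext a
    simp [mulVec, dotProduct]
  | succ n ih =>
    intro U hU hg hn
    by_cases hU0 : U = ⊥
    · exact ih U (by rw [hU0, finrank_bot]; exact Nat.zero_le n) hg hn
    obtain ⟨w, hw, hw0⟩ := (Submodule.ne_bot_iff U).1 hU0
    obtain ⟨a0, ha0⟩ := Function.ne_iff.1 hw0
    obtain ⟨d, hd⟩ : ∃ d, d = deg a0 := ⟨_, rfl⟩
    obtain ⟨u, hu⟩ : ∃ u, u = cp deg d w := ⟨_, rfl⟩
    have huU : u ∈ U := by rw [hu]; exact hg w hw d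
    have hud : hom deg d u := by rw [hu]; exact hom_cp deg d w
    have hu0 : u ≠ 0 := by
      intro h
      have h1 := congrFun h a0
      rw [hu] at h1
      unfold cp at h1
      rw [if_pos hd.symm] at h1
      exact ha0 h1
    obtain ⟨v0, hv0U, hv0⟩ : ∃ v ∈ U, B η u v ≠ 0 := by
      by_contra hcon
      push Not at hcon
      exact hu0 (hn u huU hcon)
    by_cases hdτ : d = τ
    · -- the middle degree
      have hs1 : sg K (decide (Odd τ)) = 1 := by
        have h1 : decide (Odd τ) = false := by
          rw [decide_eq_false_iff_not, Nat.not_odd_iff_even]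
          exact hτ
        rw [h1, sg_false]
      rw [hdτ] at hud
      have hBs : ∀ x, hom deg τ x → ∀ y, B η x y = B η y x := by
        intro x hx y
        rw [B_symm hη hs hx y, hs1, one_mul]
      obtain ⟨x, hxU, hxτ, hxx⟩ : ∃ x ∈ U, hom deg τ x ∧ B η x x ≠ 0 := by
        obtain ⟨v, hv⟩ : ∃ v, v = cp deg τ v0 := ⟨_, rfl⟩
        have hvU : v ∈ U := by rw [hv]; exact hg v0 hv0U τ
        have hvτ : hom deg τ v := by rw [hv]; exact hom_cp deg τ v0
        have huv : B η u v ≠ 0 := by
          rw [hv, B_cp hη hud, if_pos (by omega)]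
          exact hv0
        by_cases h1 : B η u u = 0
        · by_cases h2 : B η v v = 0
          · refine ⟨u + v, U.add_mem huU hvU, ?_, ?_⟩
            · intro a ha
              by_cases h3 : u a = 0
              · refine hvτ a fun h4 => ha ?_
                rw [Pi.add_apply, h3, h4, add_zero]
              · exact hud a h3
            · have hadd : B η (u + v) (u + v) = B η u u + B η u v + (B η v u + B η v v) := by
                unfold B
                rw [add_dotProduct, mulVec_add, dotProduct_add, dotProduct_add]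
              rw [hadd, h1, h2, hBs v hvτ u]
              intro h3
              have h4 : (2 : K) * B η u v = 0 := by linear_combination h3
              rcases mul_eq_zero.1 h4 with h5 | h5
              · exact absurd h5 two_ne_zero
              · exact huv h5
          · exact ⟨v, hvU, hvτ, h2⟩
        · exact ⟨u, huU, hud, h1⟩
      obtain ⟨U', hU'⟩ : ∃ U' : Submodule K (Fin N → K), ∀ y, y ∈ U' ↔
          y ∈ U ∧ B η x y = 0 := by
        refine ⟨{ carrier := {y | y ∈ U ∧ B η x y = 0}
                  add_mem' := ?_
                  zero_mem' := ?_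
                  smul_mem' := ?_ }, fun x => Iff.rfl⟩
        · rintro y y' ⟨h1, h2⟩ ⟨h4, h5⟩
          refine ⟨U.add_mem h1 h4, ?_⟩
          rw [B_add, h2, h5, add_zero]
        · refine ⟨U.zero_mem, ?_⟩
          have h := B_smul η x 0 0
          rw [zero_smul, zero_mul] at h
          exact h
        · rintro c y ⟨h1, h2⟩
          refine ⟨U.smul_mem c h1, ?_⟩
          rw [B_smul, h2, mul_zero]
      have hlt : U' < U := by
        refine lt_of_le_of_ne (fun y hy => ((hU' y).1 hy).1) ?_
        intro h
        have h1 : x ∈ U' := by rw [h]; exact hxU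
        exact hxx ((hU' x).1 h1).2
      have hfr : Module.finrank K U' ≤ n := by
        have h := Submodule.finrank_lt_finrank_of_lt hlt
        omega
      have hdec : ∀ y ∈ U, y - (B η x y * (B η x x)⁻¹) • x ∈ U' := by
        intro y hy
        rw [hU']
        refine ⟨U.sub_mem hy (U.smul_mem _ hxU), ?_⟩
        rw [B_sub, B_smul, mul_assoc, inv_mul_cancel₀ hxx, mul_one, sub_self]
      have hg' : ∀ y ∈ U', ∀ k : ℕ, cp deg k y ∈ U' := by
        intro y hy k
        obtain ⟨h1, h2⟩ := (hU' y).1 hy
        rw [hU']
        refine ⟨hg y h1 k, ?_⟩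
        rw [B_cp hη hxτ, h2, ite_self]
      have hn' : ∀ z ∈ U', (∀ y ∈ U', B η z y = 0) → z = 0 := by
        intro z hz hzy
        obtain ⟨h1, h2⟩ := (hU' z).1 hz
        apply hn z h1
        intro y hy
        have h4 := hzy _ (hdec y hy)
        rw [B_sub, B_smul, ← hBs x hxτ z, h2, mul_zero, sub_zero] at h4
        exact h4
      obtain ⟨J, iJ, iD, j, dg, F, k1, k2, k3, k4, k5, k6⟩ := ih U' hfr hg' hn'
      refine ⟨Unit ⊕ J, inferInstance, inferInstance,
        fun a => Sum.elim (fun _ => x a) (j a),
        Sum.elim (fun _ => τ) dg,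
        { o := Sum.elim (fun _ => decide (Odd τ)) F.o
          st := Sum.elim (fun b => Sum.inl b) (fun y => Sum.inr (F.st y))
          c := Sum.elim (fun _ => B η x x) F.c
          st_st := ?_
          o_st := ?_
          c_ne := ?_
          c_st := ?_ }, ?_, ?_, ?_, ?_, ?_, ?_⟩
      · rintro (b | y)
        · simp
        · simp [F.st_st]
      · rintro (b | y)
        · simp
        · simp [F.o_st]
      · rintro (b | y)
        · exact hxx
        · exact F.c_ne y
      · rintro (b | y)
        · show B η x x = sg K (decide (Odd τ)) * B η x x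
          rw [hs1, one_mul]
        · exact F.c_st y
      · rintro (b | y)
        · exact hxU
        · exact ((hU' _).1 (k1 y)).1
      · intro y hy
        obtain ⟨x', hx'⟩ := k2 _ (hdec y hy)
        refine ⟨Sum.elim (fun _ => B η x y * (B η x x)⁻¹) x', ?_⟩
        funext a
        have h1 := congrFun hx' a
        have h2 : (j *ᵥ x') a = ∑ z, j a z * x' z := rfl
        rw [h2] at h1
        show y a = ∑ z, _ * _
        rw [Fintype.sum_sum_type, Fintype.sum_unique]
        simp only [Sum.elim_inl, Sum.elim_inr]
        rw [← h1]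
        simp only [Pi.sub_apply, Pi.smul_apply, smul_eq_mul]
        ring
      · rintro (b | z) (b' | y)
        · simp [OForm.η]
        · obtain ⟨h1, h2⟩ := (hU' _).1 (k1 y)
          simpa [OForm.η] using h2
        · obtain ⟨h1, h2⟩ := (hU' _).1 (k1 z)
          rw [hBs x hxτ] at h2
          simpa [OForm.η] using h2
        · have h := k3 z y
          simpa [OForm.η] using h
      · rintro a (b | y) h
        · exact hxτ a h
        · exact k4 a y h
      · rintro (b | y)
        · rfl
        · exact k5 y
      · rintro (b | y) h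
        · rfl
        · show Sum.inr (F.st y) = Sum.inr y
          rw [k6 y h]
    -- the degree of u is at most 2 τ
    have hd2 : d ≤ 2 * τ := by
      by_contra hlt
      apply hv0
      rw [B_sum]
      refine Finset.sum_eq_zero fun a _ => Finset.sum_eq_zero fun b _ => ?_
      by_cases h1 : u a = 0
      · rw [h1]; ring
      by_cases h2 : η a b = 0
      · rw [h2]; ring
      have h3 := hud a h1
      have h4 := hη a b h2
      omega
    obtain ⟨e, he⟩ : ∃ e, e = 2 * τ - d := ⟨_, rfl⟩
    have hde : d + e = 2 * τ := by omega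
    obtain ⟨v, hv⟩ : ∃ v, v = (B η u v0)⁻¹ • cp deg e v0 := ⟨_, rfl⟩
    have hvU : v ∈ U := by rw [hv]; exact U.smul_mem _ (hg v0 hv0U e)
    have hve : hom deg e v := by
      intro a ha
      apply hom_cp deg e v0 a
      intro h0
      apply ha
      rw [hv]
      show (B η u v0)⁻¹ * cp deg e v0 a = 0
      rw [h0, mul_zero]
    have huv : B η u v = 1 := by
      rw [hv, B_smul, B_cp hη hud, if_pos hde, inv_mul_cancel₀ hv0]
    obtain ⟨s, hsd⟩ : ∃ s, s = sg K (decide (Odd d)) := ⟨_, rfl⟩
    have hss : s * s = 1 := by rw [hsd]; exact sg_mul_self K _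
    have hpar : decide (Odd e) = decide (Odd d) := by
      rw [decide_eq_decide]
      constructor
      · intro h
        by_contra h6
        rw [Nat.not_odd_iff_even] at h6
        have h7 := h6.add_odd h
        rw [hde] at h7
        exact (Nat.not_even_iff_odd.2 h7) (even_two_mul τ)
      · intro h
        by_contra h6
        rw [Nat.not_odd_iff_even] at h6
        have h7 := h.add_even h6
        rw [hde] at h7
        exact (Nat.not_even_iff_odd.2 h7) (even_two_mul τ)
    have hBu : ∀ x, B η x u = s * B η u x := by
      intro x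
      rw [B_symm hη hs hud x, ← hsd, ← mul_assoc, hss, one_mul]
    have hBv : ∀ x, B η x v = s * B η v x := by
      intro x
      rw [B_symm hη hs hve x, hpar, ← hsd, ← mul_assoc, hss, one_mul]
    have hvu : B η v u = s := by rw [hBu, huv, mul_one]
    have huu : B η u u = 0 := B_zero hη hud hud (by omega)
    have hvv : B η v v = 0 := B_zero hη hve hve (by omega)
    -- the orthogonal complement of u and v
    obtain ⟨U', hU'⟩ : ∃ U' : Submodule K (Fin N → K), ∀ x, x ∈ U' ↔
        x ∈ U ∧ B η u x = 0 ∧ B η v x = 0 := by
      refine ⟨{ carrier := {x | x ∈ U ∧ B η u x = 0 ∧ B η v x = 0}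
                add_mem' := ?_
                zero_mem' := ?_
                smul_mem' := ?_ }, fun x => Iff.rfl⟩
      · rintro x y ⟨h1, h2, h3⟩ ⟨h4, h5, h6⟩
        refine ⟨U.add_mem h1 h4, ?_, ?_⟩
        · rw [B_add, h2, h5, add_zero]
        · rw [B_add, h3, h6, add_zero]
      · refine ⟨U.zero_mem, ?_, ?_⟩
        · have h := B_smul η u 0 0
          rw [zero_smul, zero_mul] at h
          exact h
        · have h := B_smul η v 0 0
          rw [zero_smul, zero_mul] at h
          exact h
      · rintro c x ⟨h1, h2, h3⟩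
        refine ⟨U.smul_mem c h1, ?_, ?_⟩
        · rw [B_smul, h2, mul_zero]
        · rw [B_smul, h3, mul_zero]
    have hlt : U' < U := by
      refine lt_of_le_of_ne (fun x hx => ((hU' x).1 hx).1) ?_
      intro h
      have h1 : u ∈ U' := by rw [h]; exact huU
      have h2 := ((hU' u).1 h1).2.2
      rw [hvu] at h2
      rw [h2] at hss
      simp at hss
    have hfr : Module.finrank K U' ≤ n := by
      have h := Submodule.finrank_lt_finrank_of_lt hlt
      omega
    have hdec : ∀ y ∈ U, y - (s * B η v y) • u - (B η u y) • v ∈ U' := by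
      intro y hy
      rw [hU']
      refine ⟨U.sub_mem (U.sub_mem hy (U.smul_mem _ huU)) (U.smul_mem _ hvU), ?_, ?_⟩
      · rw [B_sub, B_sub, B_smul, B_smul, huu, huv]
        ring
      · rw [B_sub, B_sub, B_smul, B_smul, hvu, hvv]
        linear_combination (- B η v y) * hss
    have hg' : ∀ x ∈ U', ∀ k : ℕ, cp deg k x ∈ U' := by
      intro x hx k
      obtain ⟨h1, h2, h3⟩ := (hU' x).1 hx
      rw [hU']
      refine ⟨hg x h1 k, ?_, ?_⟩
      · rw [B_cp hη hud, h2, ite_self]
      · rw [B_cp hη hve, h3, ite_self]
    have hn' : ∀ x ∈ U', (∀ y ∈ U', B η x y = 0) → x = 0 := by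
      intro x hx hxy
      obtain ⟨h1, h2, h3⟩ := (hU' x).1 hx
      apply hn x h1
      intro y hy
      have h4 := hxy _ (hdec y hy)
      rw [B_sub, B_sub, B_smul, B_smul, hBu x, hBv x, h2, h3] at h4
      linear_combination h4
    obtain ⟨J, iJ, iD, j, dg, F, k1, k2, k3, k4, k5, k6⟩ := ih U' hfr hg' hn'
    have hs0 : s ≠ 0 := by
      intro h0
      rw [h0, mul_zero] at hss
      exact zero_ne_one hss
    -- the new basis
    refine ⟨Bool ⊕ J, inferInstance, inferInstance,
      fun a => Sum.elim (fun b => if b = true then v a else u a) (j a),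
      Sum.elim (fun b => if b = true then e else d) dg,
      { o := Sum.elim (fun _ => decide (Odd d)) F.o
        st := Sum.elim (fun b => Sum.inl (!b)) (fun x => Sum.inr (F.st x))
        c := Sum.elim (fun b => if b = true then s else 1) F.c
        st_st := ?_
        o_st := ?_
        c_ne := ?_
        c_st := ?_ }, ?_, ?_, ?_, ?_, ?_, ?_⟩
    · rintro (b | x)
      · simp
      · simp [F.st_st]
    · rintro (b | x)
      · simp
      · simp [F.o_st]
    · rintro (b | x)
      · cases b
        · simp
        · simpa using hs0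
      · exact F.c_ne x
    · rintro (b | x)
      · cases b
        · simp [hsd]
        · have h : (1 : K) = sg K (decide (Odd d)) * s := by rw [← hsd, hss]
          simpa using h
      · exact F.c_st x
    · rintro (b | x)
      · cases b
        · simpa using huU
        · simpa using hvU
      · exact ((hU' _).1 (k1 x)).1
    · intro y hy
      obtain ⟨x', hx'⟩ := k2 _ (hdec y hy)
      refine ⟨Sum.elim (fun b => if b = true then B η u y else s * B η v y) x', ?_⟩
      funext a
      have h1 := congrFun hx' a
      have h2 : (j *ᵥ x') a = ∑ z, j a z * x' z := rfl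
      rw [h2] at h1
      show y a = ∑ z, _ * _
      rw [Fintype.sum_sum_type, Fintype.sum_bool]
      simp only [Sum.elim_inl, Sum.elim_inr, if_true, Bool.false_eq_true, if_false]
      rw [← h1]
      simp only [Pi.sub_apply, Pi.smul_apply, smul_eq_mul]
      ring
    · rintro (b | x) (b' | y)
      · cases b <;> cases b'
        · simpa [OForm.η] using huu
        · simpa [OForm.η] using huv
        · simpa [OForm.η] using hvu
        · simpa [OForm.η] using hvv
      · obtain ⟨h1, h2, h3⟩ := (hU' _).1 (k1 y)
        cases b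
        · simpa [OForm.η] using h2
        · simpa [OForm.η] using h3
      · obtain ⟨h1, h2, h3⟩ := (hU' _).1 (k1 x)
        cases b'
        · have h4 := hBu (fun a => j a x)
          rw [h2, mul_zero] at h4
          simpa [OForm.η] using h4
        · have h4 := hBv (fun a => j a x)
          rw [h3, mul_zero] at h4
          simpa [OForm.η] using h4
      · have h := k3 x y
        simpa [OForm.η] using h
    · rintro a (b | x) h
      · cases b
        · exact hud a (by simpa using h)
        · exact hve a (by simpa using h)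
      · exact k4 a x h
    · rintro (b | x)
      · cases b
        · simp
        · simp only [Sum.elim_inl, if_true]
          exact hpar.symm
      · exact k5 x
    · rintro (b | x) h
      · exfalso
        cases b
        · have h1 : d = τ := by simpa using h
          exact hdτ h1
        · have h1 : e = τ := by simpa using h
          omega
      · show Sum.inr (F.st x) = Sum.inr x
        rw [k6 x h]

theorem pf_HYO : T_HYO := by
  intro K _ _ N deg τ η hτ hη hs U hg hn
  obtain ⟨J, iJ, iD, j, dg, F, k1, k2, k3, k4, k5, k6⟩ :=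
    main K N deg τ η hτ hη hs (Module.finrank K U) U le_rfl hg hn
  have hform : jᵀ * η * j = F.η := by
    ext x y
    rw [← k3 x y, B_sum, Matrix.mul_apply]
    simp only [Matrix.mul_apply, Matrix.transpose_apply, Finset.sum_mul]
    rw [Finset.sum_comm]
  -- the dimension
  have hcard : Fintype.card J = Module.finrank K U := by
    have e : (J → K) ≃ₗ[K] U := by
      refine LinearEquiv.ofBijective
        (LinearMap.codRestrict U (Matrix.mulVecLin j) ?_) ⟨?_, ?_⟩
      · intro x
        have h : Matrix.mulVecLin j x = ∑ b, x b • (fun a => j a b) := by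
          funext a
          rw [Finset.sum_apply]
          show ∑ b, j a b * x b = _
          refine Finset.sum_congr rfl fun b _ => ?_
          rw [Pi.smul_apply, smul_eq_mul, mul_comm]
        rw [h]
        exact U.sum_mem fun b _ => U.smul_mem _ (k1 b)
      · rw [injective_iff_map_eq_zero]
        intro x hx
        have h1 : j *ᵥ x = 0 := congrArg Subtype.val hx
        have h2 : F.η *ᵥ x = 0 := by
          rw [← hform, ← Matrix.mulVec_mulVec, h1, Matrix.mulVec_zero]
        have h3 : F.ω *ᵥ (F.η *ᵥ x) = x := by
          rw [Matrix.mulVec_mulVec, F.ω_mul_η, Matrix.one_mulVec]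
        rw [h2, Matrix.mulVec_zero] at h3
        exact h3.symm
      · rintro ⟨u, hu⟩
        obtain ⟨x, hx⟩ := k2 u hu
        exact ⟨x, Subtype.ext hx.symm⟩
    rw [← e.finrank_eq, Module.finrank_fintype_fun_eq_card]
  let e := Fintype.equivFinOfCardEq hcard
  refine ⟨Module.finrank K U, fun a b => j a (e.symm b), fun b => dg (e.symm b),
    { o := fun b => F.o (e.symm b)
      st := fun b => e (F.st (e.symm b))
      c := fun b => F.c (e.symm b)
      st_st := fun a => by simp [F.st_st]
      o_st := fun a => by simp [F.o_st]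
      c_ne := fun a => F.c_ne _
      c_st := fun a => by simpa using F.c_st (e.symm a) }, rfl, fun b => k1 _, ?_, ?_,
    fun a b => k4 a _, fun b => k5 _, fun b hb => by
      show e (F.st (e.symm b)) = b
      rw [k6 _ hb, Equiv.apply_symm_apply]⟩
  · intro u hu
    obtain ⟨x, hx⟩ := k2 u hu
    refine ⟨fun b => x (e.symm b), ?_⟩
    rw [hx]
    funext a
    show ∑ b, j a b * x b = ∑ b, j a (e.symm b) * x (e.symm b)
    exact (Equiv.sum_comp e.symm fun b => j a b * x b).symm
  · ext x y
    have h := k3 (e.symm x) (e.symm y)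
    have h1 : (F.η (e.symm x) (e.symm y)) =
        if y = e (F.st (e.symm x)) then F.c (e.symm x) else 0 := by
      rw [OForm.η, Matrix.of_apply]
      by_cases hy : e.symm y = F.st (e.symm x)
      · rw [if_pos hy, if_pos]
        rw [← hy, Equiv.apply_symm_apply]
      · rw [if_neg hy, if_neg]
        intro h2
        apply hy
        rw [h2, Equiv.symm_apply_apply]
    show ∑ b, (∑ a, j a (e.symm x) * η a b) * j b (e.symm y) = _
    rw [OForm.η, Matrix.of_apply, ← h1, ← h, B_sum]
    simp only [Finset.sum_mul]
    rw [Finset.sum_comm]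

end Pool.Agent.H35.EV
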