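import Pool.Agent.H64.EV.Targets

/-!
# OWT: weights for the orthogonal Lie algebra
-/

set_option autoImplicit false

open Matrix Pool.Agent.H64.CC Pool.Agent.H2.NL Pool.Agent.H64.EV
open scoped Kronecker

namespace Pool.Agent.H35.EV.OWT

section kron

variable {K : Type} [Field K] {I : Type} [Fintype I] [DecidableEq I]

theorem D2_eq (T : Matrix I I K) :
    D2 T = T ⊗ₖ (1 : Matrix I I K) + (1 : Matrix I I K) ⊗ₖ T := by
  ext x y
  rw [Matrix.add_apply, kroneckerMap_apply, kroneckerMap_apply, Matrix.one_apply,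
    Matrix.one_apply]
  rfl

theorem D2_sq {T Q : Matrix I I K} {C : K} (h1 : T * T = (-C) • Q) :
    D2 T * D2 T = (-C) • (Q ⊗ₖ (1 : Matrix I I K)) + (2 : K) • (T ⊗ₖ T) +
      (-C) • ((1 : Matrix I I K) ⊗ₖ Q) := by
  rw [D2_eq, add_mul, mul_add, mul_add, ← mul_kronecker_mul, ← mul_kronecker_mul,
    ← mul_kronecker_mul, ← mul_kronecker_mul, h1]
  simp only [one_mul, mul_one]
  rw [smul_kronecker, kronecker_smul]
  module

theorem D2_four {T Q : Matrix I I K} {C : K} (h1 : T * T = (-C) • Q) (h2 : Q * Q = Q)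
    (h3 : T * Q = T) (h4 : Q * T = T) :
    (D2 T * D2 T) * (D2 T * D2 T) + (4 * C) • (D2 T * D2 T) =
      (-(3 * C ^ 2)) • (Q ⊗ₖ (1 : Matrix I I K) + (1 : Matrix I I K) ⊗ₖ Q -
        (2 : K) • (Q ⊗ₖ Q)) := by
  have a1 : (Q ⊗ₖ (1 : Matrix I I K)) * (Q ⊗ₖ (1 : Matrix I I K)) = Q ⊗ₖ (1 : Matrix I I K) := by
    rw [← mul_kronecker_mul, h2, one_mul]
  have a2 : ((1 : Matrix I I K) ⊗ₖ Q) * ((1 : Matrix I I K) ⊗ₖ Q) = (1 : Matrix I I K) ⊗ₖ Q := by
    rw [← mul_kronecker_mul, h2, one_mul]
  have a3 : (Q ⊗ₖ (1 : Matrix I I K)) * ((1 : Matrix I I K) ⊗ₖ Q) = Q ⊗ₖ Q := by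
    rw [← mul_kronecker_mul, one_mul, mul_one]
  have a4 : ((1 : Matrix I I K) ⊗ₖ Q) * (Q ⊗ₖ (1 : Matrix I I K)) = Q ⊗ₖ Q := by
    rw [← mul_kronecker_mul, one_mul, mul_one]
  have a5 : (Q ⊗ₖ (1 : Matrix I I K)) * (T ⊗ₖ T) = T ⊗ₖ T := by
    rw [← mul_kronecker_mul, one_mul, h4]
  have a6 : (T ⊗ₖ T) * (Q ⊗ₖ (1 : Matrix I I K)) = T ⊗ₖ T := by
    rw [← mul_kronecker_mul, mul_one, h3]
  have a7 : ((1 : Matrix I I K) ⊗ₖ Q) * (T ⊗ₖ T) = T ⊗ₖ T := by
    rw [← mul_kronecker_mul, one_mul, h4]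
  have a8 : (T ⊗ₖ T) * ((1 : Matrix I I K) ⊗ₖ Q) = T ⊗ₖ T := by
    rw [← mul_kronecker_mul, mul_one, h3]
  have a9 : (T ⊗ₖ T) * (T ⊗ₖ T) = (C ^ 2) • (Q ⊗ₖ Q) := by
    rw [← mul_kronecker_mul, h1, smul_kronecker, kronecker_smul, smul_smul]
    congr 1
    ring
  rw [D2_sq h1]
  simp only [add_mul, mul_add, smul_mul_assoc, mul_smul_comm, a1, a2, a3, a4, a5, a6, a7, a8, a9]
  module

end kron

section form

variable {K : Type} [Field K] [CharZero K] {V P : Type} [Fintype V] [DecidableEq V] [Fintype P]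
  [DecidableEq P] (F : OForm K (V ⊕ P))

theorem T_apply (hst : ∀ p : V, F.st (Sum.inl p) = Sum.inl p) (r s : V) (a b : V ⊕ P) :
    F.T (Sum.inl r) (Sum.inl s) a b =
      (if a = Sum.inl r ∧ b = Sum.inl s then F.c (Sum.inl s) else 0) -
      (if a = Sum.inl s ∧ b = Sum.inl r then F.c (Sum.inl r) else 0) := by
  unfold OForm.T OForm.η
  simp only [Matrix.of_apply, hst]
  congr 1
  · by_cases h1 : a = Sum.inl r <;> by_cases h2 : b = Sum.inl s <;> simp [h1, h2]
  · by_cases h1 : a = Sum.inl s <;> by_cases h2 : b = Sum.inl r <;> simp [h1, h2]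

/-- the projection on the two letters -/
def pr (K : Type) [Field K] (r s : V) (a : V ⊕ P) : K :=
  if a = Sum.inl r ∨ a = Sum.inl s then 1 else 0

theorem T_eq (hst : ∀ p : V, F.st (Sum.inl p) = Sum.inl p) (r s : V) :
    F.T (Sum.inl r) (Sum.inl s) =
      Matrix.single (Sum.inl r) (Sum.inl s) (F.c (Sum.inl s)) -
      Matrix.single (Sum.inl s) (Sum.inl r) (F.c (Sum.inl r)) := by
  ext a b
  rw [T_apply F hst, Matrix.sub_apply, Matrix.single_apply, Matrix.single_apply]
  congr 1
  · by_cases h1 : a = Sum.inl r <;> by_cases h2 : b = Sum.inl s <;>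
      simp [h1, h2, eq_comm]
  · by_cases h1 : a = Sum.inl s <;> by_cases h2 : b = Sum.inl r <;>
      simp [h1, h2, eq_comm]

theorem pr_eq {r s : V} (hrs : r ≠ s) : Matrix.diagonal (pr (P := P) K r s) =
    Matrix.single (Sum.inl r) (Sum.inl r) (1 : K) + Matrix.single (Sum.inl s) (Sum.inl s) 1 := by
  ext a b
  rw [Matrix.add_apply, Matrix.single_apply, Matrix.single_apply, Matrix.diagonal_apply]
  unfold pr
  by_cases hab : a = b
  · subst hab
    by_cases h1 : a = Sum.inl r
    · subst h1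
      simp [hrs, Ne.symm hrs]
    · by_cases h2 : a = Sum.inl s
      · subst h2
        simp [hrs, Ne.symm hrs]
      · simp [h1, h2, Ne.symm h1, Ne.symm h2]
  · rw [if_neg hab]
    have h1 : ¬ ((Sum.inl r : V ⊕ P) = a ∧ Sum.inl r = b) := fun h => hab (h.1.symm.trans h.2)
    have h2 : ¬ ((Sum.inl s : V ⊕ P) = a ∧ Sum.inl s = b) := fun h => hab (h.1.symm.trans h.2)
    rw [if_neg h1, if_neg h2, add_zero]

theorem T_sq (hst : ∀ p : V, F.st (Sum.inl p) = Sum.inl p) {r s : V} (hrs : r ≠ s) :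
    F.T (Sum.inl r) (Sum.inl s) * F.T (Sum.inl r) (Sum.inl s) =
      (-(F.c (Sum.inl r) * F.c (Sum.inl s))) • Matrix.diagonal (pr (P := P) K r s) := by
  have h1 : (Sum.inl r : V ⊕ P) ≠ Sum.inl s := fun h => hrs (Sum.inl_injective h)
  rw [T_eq F hst, pr_eq hrs, sub_mul, mul_sub, mul_sub, Matrix.single_mul_single_of_ne _ _ _ _ h1.symm,
    Matrix.single_mul_single_same, Matrix.single_mul_single_same,
    Matrix.single_mul_single_of_ne _ _ _ _ h1, smul_add, Matrix.smul_single, Matrix.smul_single,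
    zero_sub, sub_zero, smul_eq_mul, mul_one]
  have e : ∀ (i : V ⊕ P) (c : K), Matrix.single i i (-c) = -Matrix.single i i c := by
    intro i c
    ext a b
    rw [Matrix.neg_apply, Matrix.single_apply, Matrix.single_apply]
    split_ifs <;> simp
  rw [e, e, mul_comm (F.c (Sum.inl s)) (F.c (Sum.inl r))]
  abel

theorem pr_sq (r s : V) : Matrix.diagonal (pr (P := P) K r s) * Matrix.diagonal (pr K r s) =
    Matrix.diagonal (pr K r s) := by
  rw [Matrix.diagonal_mul_diagonal]
  congr 1
  funext a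
  unfold pr
  split_ifs <;> simp

theorem T_pr (hst : ∀ p : V, F.st (Sum.inl p) = Sum.inl p) (r s : V) :
    F.T (Sum.inl r) (Sum.inl s) * Matrix.diagonal (pr (P := P) K r s) =
      F.T (Sum.inl r) (Sum.inl s) := by
  ext a b
  rw [Matrix.mul_diagonal, T_apply F hst]
  unfold pr
  by_cases h1 : b = Sum.inl r
  · simp [h1]
  · by_cases h2 : b = Sum.inl s
    · simp [h2]
    · simp [h1, h2]

theorem pr_T (hst : ∀ p : V, F.st (Sum.inl p) = Sum.inl p) (r s : V) :
    Matrix.diagonal (pr (P := P) K r s) * F.T (Sum.inl r) (Sum.inl s) =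
      F.T (Sum.inl r) (Sum.inl s) := by
  ext a b
  rw [Matrix.diagonal_mul, T_apply F hst]
  unfold pr
  by_cases h1 : a = Sum.inl r
  · simp [h1]
  · by_cases h2 : a = Sum.inl s
    · simp [h2]
    · simp [h1, h2]

/-- the entries of a matrix which commutes with the Lie algebra -/
theorem entry (hst : ∀ p : V, F.st (Sum.inl p) = Sum.inl p)
    {g : Matrix ((V ⊕ P) × (V ⊕ P)) ((V ⊕ P) × (V ⊕ P)) K}
    (hg : ∀ p q : V, g * D2 (F.T (Sum.inl p) (Sum.inl q)) = D2 (F.T (Sum.inl p) (Sum.inl q)) * g)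
    {r s : V} (hrs : r ≠ s) {x y : (V ⊕ P) × (V ⊕ P)} (hxy : g x y ≠ 0) :
    pr K r s x.1 + pr K r s x.2 - 2 * (pr K r s x.1 * pr K r s x.2) =
      pr K r s y.1 + pr K r s y.2 - 2 * (pr K r s y.1 * pr K r s y.2) := by
  obtain ⟨D, hD⟩ : ∃ D, D = D2 (F.T (Sum.inl r) (Sum.inl s)) := ⟨_, rfl⟩
  obtain ⟨C, hC⟩ : ∃ C, C = F.c (Sum.inl r) * F.c (Sum.inl s) := ⟨_, rfl⟩
  have hC0 : C ≠ 0 := by
    rw [hC]
    exact mul_ne_zero (F.c_ne _) (F.c_ne _)
  have h1 := hg r s
  rw [← hD] at h1
  have h2 : g * (D * D) = (D * D) * g := by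
    rw [← mul_assoc, h1, mul_assoc, h1, mul_assoc]
  have h3 : g * ((D * D) * (D * D)) = ((D * D) * (D * D)) * g := by
    rw [← mul_assoc g, h2, mul_assoc (D * D) g, h2]
    simp only [mul_assoc]
  have h4 : g * ((D * D) * (D * D) + (4 * C) • (D * D)) =
      ((D * D) * (D * D) + (4 * C) • (D * D)) * g := by
    rw [mul_add, add_mul, h3, mul_smul_comm, smul_mul_assoc, h2]
  have hsq := T_sq F hst hrs
  rw [← hC] at hsq
  have h5 := D2_four hsq (pr_sq r s) (T_pr F hst r s) (pr_T F hst r s)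
  rw [← hD] at h5
  rw [h5, mul_smul_comm, smul_mul_assoc] at h4
  have h6 : (-(3 * C ^ 2)) ≠ 0 := neg_ne_zero.2 (mul_ne_zero three_ne_zero (pow_ne_zero _ hC0))
  have h7 := smul_right_injective _ h6 h4
  have h8 : (Matrix.diagonal (pr (P := P) K r s) ⊗ₖ (1 : Matrix (V ⊕ P) (V ⊕ P) K) +
      (1 : Matrix (V ⊕ P) (V ⊕ P) K) ⊗ₖ Matrix.diagonal (pr K r s) -
      (2 : K) • (Matrix.diagonal (pr K r s) ⊗ₖ Matrix.diagonal (pr K r s))) =
      Matrix.diagonal fun z : (V ⊕ P) × (V ⊕ P) =>
        pr K r s z.1 + pr K r s z.2 - 2 * (pr K r s z.1 * pr K r s z.2) := by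
    ext z w
    rw [Matrix.sub_apply, Matrix.add_apply, Matrix.smul_apply, kroneckerMap_apply,
      kroneckerMap_apply, kroneckerMap_apply, Matrix.diagonal_apply, Matrix.diagonal_apply,
      Matrix.diagonal_apply, Matrix.one_apply, Matrix.one_apply]
    by_cases e1 : z.1 = w.1
    · by_cases e2 : z.2 = w.2
      · have e3 : z = w := Prod.ext e1 e2
        simp [e3]
      · have e3 : z ≠ w := fun h => e2 (by rw [h])
        simp [e2, e3]
    · have e3 : z ≠ w := fun h => e1 (by rw [h])
      simp [e1, e3]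
  rw [h8] at h7
  have h9 := congrFun (congrFun h7 x) y
  rw [Matrix.mul_diagonal, Matrix.diagonal_mul, mul_comm] at h9
  exact (mul_right_cancel₀ hxy h9).symm

theorem exists_new {T : Type} [Fintype T] [DecidableEq T] (h : 3 < Fintype.card T) (a b p : T) :
    ∃ s : T, s ≠ a ∧ s ≠ b ∧ s ≠ p := by
  by_contra hcon
  push Not at hcon
  have h1 : (Finset.univ : Finset T) ⊆ {a, b, p} := by
    intro s _
    rw [Finset.mem_insert, Finset.mem_insert, Finset.mem_singleton]
    by_cases h2 : s = a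
    · exact Or.inl h2
    · by_cases h3 : s = b
      · exact Or.inr (Or.inl h3)
      · exact Or.inr (Or.inr (hcon s h2 h3))
  have h2 := Finset.card_le_card h1
  rw [Finset.card_univ] at h2
  have h3 : ({a, b, p} : Finset T).card ≤ 3 := Finset.card_le_three
  omega

end form

theorem pf_OWT : T_OWT := by
  intro K _ _ V P _ _ _ _ F A hS g hg
  have hst := hS.st_V
  have hcard : ∀ _ : P, 3 < Fintype.card V := by
    intro y
    have h1 := hS.large
    have h2 : 1 ≤ Fintype.card P := Fintype.card_pos_iff.2 ⟨y⟩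
    nlinarith
  have hin : ∀ r s a : V, pr (P := P) K r s (Sum.inl a) = if a = r ∨ a = s then 1 else 0 := by
    intro r s a
    unfold pr
    simp only [Sum.inl.injEq]
  have hnr : ∀ (r s : V) (z : P), pr (V := V) K r s (Sum.inr z) = 0 := by
    intro r s z
    unfold pr
    rw [if_neg]
    rintro (h | h) <;> exact absurd h (by simp)
  refine ⟨?_, ?_, ?_⟩
  · rintro ⟨x1, x2⟩ p y hxy
    have hc := hcard y
    have hent : ∀ s, s ≠ p → pr K p s x1 + pr K p s x2 - 2 * (pr K p s x1 * pr K p s x2) = 1 := by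
      intro s hs
      have h1 := entry F hst hg (Ne.symm hs) hxy
      simp only [hnr, hin, true_or, if_true, mul_zero, add_zero, sub_zero] at h1
      exact h1
    rcases x1 with a | z
    · rcases x2 with b | z'
      · exfalso
        by_cases hab : a = b
        · obtain ⟨s, hs, -, -⟩ := exists_new hc p p p
          have h1 := hent s hs
          rw [hab] at h1
          simp only [hin] at h1
          split_ifs at h1 <;> norm_num at h1
        · by_cases hp : p = a ∨ p = b
          · have h1 := entry F hst hg hab hxy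
            simp only [hin, hnr] at h1
            simp only [hp, true_or, or_true, if_true, mul_zero, add_zero, sub_zero] at h1
            norm_num at h1
          · push Not at hp
            obtain ⟨s, hs1, hs2, hs3⟩ := exists_new hc a b p
            have h1 := hent s hs3
            simp only [hin] at h1
            simp only [Ne.symm hp.1, Ne.symm hp.2, Ne.symm hs1, Ne.symm hs2, or_self, if_false,
              mul_zero, add_zero, sub_zero] at h1
            exact zero_ne_one h1
      · by_cases hap : a = p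
        · exact ⟨z', Or.inl (by rw [hap])⟩
        · exfalso
          obtain ⟨s, hs1, -, hs3⟩ := exists_new hc a a p
          have h1 := hent s hs3
          simp only [hin, hnr] at h1
          simp only [hap, Ne.symm hs1, or_self, if_false, mul_zero, add_zero, sub_zero] at h1
          exact zero_ne_one h1
    · rcases x2 with a | z'
      · by_cases hap : a = p
        · exact ⟨z, Or.inr (by rw [hap])⟩
        · exfalso
          obtain ⟨s, hs1, -, hs3⟩ := exists_new hc a a p
          have h1 := hent s hs3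
          simp only [hin, hnr] at h1
          simp only [hap, Ne.symm hs1, or_self, if_false, mul_zero, add_zero, sub_zero] at h1
          exact zero_ne_one h1
      · exfalso
        obtain ⟨s, hs, -, -⟩ := exists_new hc p p p
        have h1 := hent s hs
        simp only [hnr, mul_zero, add_zero, sub_zero] at h1
        exact zero_ne_one h1
  · rintro ⟨x1, x2⟩ y y' hxy
    have hc := hcard y
    have hent : ∀ r s, r ≠ s →
        pr K r s x1 + pr K r s x2 - 2 * (pr K r s x1 * pr K r s x2) = 0 := by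
      intro r s hs
      have h1 := entry F hst hg hs hxy
      simp only [hnr, mul_zero, add_zero, sub_zero] at h1
      exact h1
    rcases x1 with a | z
    · rcases x2 with b | z'
      · exact Or.inr ⟨a, b, rfl⟩
      · exfalso
        obtain ⟨s, hs, -, -⟩ := exists_new hc a a a
        have h1 := hent a s (Ne.symm hs)
        simp only [hin, hnr, true_or, if_true, mul_zero, add_zero, sub_zero] at h1
        exact one_ne_zero h1
    · rcases x2 with b | z'
      · exfalso
        obtain ⟨s, hs, -, -⟩ := exists_new hc b b b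
        have h1 := hent b s (Ne.symm hs)
        simp only [hin, hnr, true_or, if_true, zero_mul, mul_zero, zero_add, sub_zero] at h1
        exact one_ne_zero h1
      · exact Or.inl ⟨z, z', rfl⟩
  · intro p q y y'
    by_cases hpq : p = q
    · rw [hpq]
    have h1 := congrFun (congrFun (hg p q) (Sum.inl p, Sum.inr y')) (Sum.inl q, Sum.inr y)
    rw [Matrix.mul_apply, Matrix.mul_apply] at h1
    have hTr : ∀ (a : V ⊕ P) (z : P), F.T (Sum.inl p) (Sum.inl q) a (Sum.inr z) = 0 := by
      intro a z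
      rw [T_apply F hst]
      simp
    have hTl : ∀ (a : V ⊕ P) (z : P), F.T (Sum.inl p) (Sum.inl q) (Sum.inr z) a = 0 := by
      intro a z
      rw [T_apply F hst]
      simp
    have hl : ∑ z : (V ⊕ P) × (V ⊕ P), g (Sum.inl p, Sum.inr y') z *
        D2 (F.T (Sum.inl p) (Sum.inl q)) z (Sum.inl q, Sum.inr y) =
        g (Sum.inl p, Sum.inr y') (Sum.inl p, Sum.inr y) * F.c (Sum.inl q) := by
      rw [Finset.sum_eq_single (Sum.inl p, Sum.inr y)]
      · unfold D2
        rw [Matrix.of_apply, hTr, mul_zero, add_zero, if_pos rfl, mul_one, T_apply F hst]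
        simp [hpq, Ne.symm hpq]
      · rintro ⟨z1, z2⟩ _ hz
        unfold D2
        rw [Matrix.of_apply, hTr, mul_zero, add_zero, T_apply F hst]
        by_cases h2 : z2 = Sum.inr y
        · have h3 : z1 ≠ Sum.inl p := fun h => hz (by rw [h, h2])
          simp [h2, h3, Ne.symm hpq]
        · simp [h2]
      · intro h
        exact absurd (Finset.mem_univ _) h
    have hr : ∑ z : (V ⊕ P) × (V ⊕ P), D2 (F.T (Sum.inl p) (Sum.inl q)) (Sum.inl p, Sum.inr y') z *
        g z (Sum.inl q, Sum.inr y) =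
        F.c (Sum.inl q) * g (Sum.inl q, Sum.inr y') (Sum.inl q, Sum.inr y) := by
      rw [Finset.sum_eq_single (Sum.inl q, Sum.inr y')]
      · unfold D2
        rw [Matrix.of_apply, hTl, mul_zero, add_zero, if_pos rfl, mul_one, T_apply F hst]
        simp [hpq, Ne.symm hpq]
      · rintro ⟨z1, z2⟩ _ hz
        unfold D2
        rw [Matrix.of_apply, hTl, mul_zero, add_zero, T_apply F hst]
        by_cases h2 : Sum.inr y' = z2
        · have h3 : z1 ≠ Sum.inl q := fun h => hz (by rw [h, h2])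
          simp [h2, h3, hpq]
        · simp [h2]
      · intro h
        exact absurd (Finset.mem_univ _) h
    rw [hl, hr, mul_comm] at h1
    exact mul_left_cancel₀ (F.c_ne _) h1

end Pool.Agent.H35.EV.OWT
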